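import Pool.Agent.GBS.StmtsB

/-!
Squad GBS, row SG1: sectional curvature at most 1 implies `sg K ≤ 1`.
-/

namespace Pool.Agent.GBS.H94

open Pool.Agent.GBS

theorem sec4_single (K : Fin 4 → Fin 4 → Fin 4 → Fin 4 → ℝ) (a b : Fin 4) :
    sec4 K (Pi.single a 1) (Pi.single b 1) = K a b b a := by
  unfold sec4
  rw [Finset.sum_eq_single a, Finset.sum_eq_single b, Finset.sum_eq_single b,
    Finset.sum_eq_single a]
  · simp
  · intro d _ hd
    simp [Pi.single_apply, hd]
  · simp
  · intro c _ hc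
    simp [Pi.single_apply, hc]
  · simp
  · intro b' _ hb
    simp [Pi.single_apply, hb]
  · simp
  · intro a' _ ha
    simp [Pi.single_apply, ha]
  · simp

theorem ar4_single {a b : Fin 4} (h : a ≠ b) :
    ar4 (Pi.single a 1) (Pi.single b 1) = 1 := by
  unfold ar4
  have h1 : ∀ c : Fin 4, (∑ i, (Pi.single c (1 : ℝ) : Fin 4 → ℝ) i ^ 2) = 1 := by
    intro c
    rw [Finset.sum_eq_single c]
    · simp
    · intro d _ hd
      simp [Pi.single_apply, hd]
    · simp
  have h2 : (∑ i, (Pi.single a (1 : ℝ) : Fin 4 → ℝ) i * (Pi.single b (1 : ℝ) : Fin 4 → ℝ) i) = 0 := by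
    apply Finset.sum_eq_zero
    intro i _
    by_cases hi : i = a
    · subst hi
      simp [Pi.single_apply, h]
    · simp [Pi.single_apply, hi]
  rw [h1, h1, h2]
  norm_num

theorem sg1 : Sg1Stmt := by
  intro K hK hS
  have h0 : ∀ a, K a a a a = 0 := by
    intro a
    have := hK.anti a a a a
    linarith
  have h1 : ∀ a b, a ≠ b → K a b b a ≤ 1 := by
    intro a b hab
    have := hS (Pi.single a 1) (Pi.single b 1)
    rw [sec4_single, ar4_single hab] at this
    linarith
  have h2 : ∀ a b, K a b b a ≤ if a = b then 0 else 1 := by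
    intro a b
    split_ifs with h
    · subst h
      exact (h0 a).le
    · exact h1 a b h
  have h3 : (∑ a, ∑ b, K a b b a) ≤ ∑ a : Fin 4, ∑ b : Fin 4, if a = b then (0 : ℝ) else 1 :=
    Finset.sum_le_sum fun a _ => Finset.sum_le_sum fun b _ => h2 a b
  have h4 : (∑ a : Fin 4, ∑ b : Fin 4, if a = b then (0 : ℝ) else 1) = 12 := by
    simp [Fin.sum_univ_four]
    norm_num
  unfold sg
  rw [h4] at h3
  linarith

end Pool.Agent.GBS.H94
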